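import Pool.Agent.Work.MP_d899bc_co.Used

/-!
Every node is joined to at least `2 n` other nodes by used lines.
-/

open Finset MvPolynomial

namespace Pool.Agent.Work.MP_d899bc_co

variable {n : ℕ} {X : Finset (ℝ × ℝ)} {𝓛 : Finset (Set (ℝ × ℝ))}
  {t : Set (ℝ × ℝ) → ℝ × ℝ × ℝ} {U : ℝ × ℝ → Finset (Set (ℝ × ℝ))}

theorem half (D : Data n X 𝓛 t U) (A : ℝ × ℝ) (hA : A ∈ X) (i : ℝ × ℝ → Set (ℝ × ℝ))
    (hi : ∀ B ∈ X, B ≠ A → i B ∈ U B ∧ A ∈ i B) (r : Set (ℝ × ℝ) → ℕ)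
    (hr : ∀ ℓ ∈ 𝓛, ∀ ℓ' ∈ 𝓛, r ℓ = r ℓ' → ℓ = ℓ') (Q : Finset (ℝ × ℝ))
    (hQ : ∀ C ∈ X, C ≠ A → ∀ ℓ ∈ 𝓛, A ∈ ℓ → C ∈ ℓ → r ℓ < r (i C) → C ∈ Q) :
    n ≤ Q.card := by
  classical
  set S : Finset (MvPolynomial (Fin 2) ℝ) := (insert A Q).image (lead n t U) with hS
  set W : Submodule ℝ (MvPolynomial (Fin 2) ℝ) := Submodule.span ℝ (S : Set _) with hW
  have hmem : ∀ C ∈ insert A Q, lead n t U C ∈ W := by
    intro C hC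
    refine Submodule.subset_span ?_
    rw [Finset.mem_coe, hS]
    exact Finset.mem_image_of_mem _ hC
  have key : ∀ k : ℕ, ∀ ℓ ∈ 𝓛, A ∈ ℓ → r ℓ = k → ∀ C ∈ X, C ∈ ℓ → lead n t U C ∈ W := by
    intro k
    induction k using Nat.strong_induction_on with
    | _ k ih =>
      intro ℓ hℓ hAℓ hk C hC hCℓ
      by_cases hCA : C = A
      · rw [hCA]; exact hmem A (Finset.mem_insert_self _ _)
      obtain ⟨h1, h2⟩ := hi C hC hCA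
      have h3 : i C ∈ 𝓛 := D.sub C hC h1
      have hne : r ℓ ≠ r (i C) := by
        intro h
        have := hr ℓ hℓ (i C) h3 h
        rw [this] at hCℓ
        exact D.notMem C hC (i C) h1 hCℓ
      rcases lt_or_gt_of_ne hne with h | h
      · exact hmem C (Finset.mem_insert_of_mem (hQ C hC hCA ℓ hℓ hAℓ hCℓ h))
      · refine D.lead_mem C hC (i C) h1 W fun E hE hEi => ?_
        exact ih (r (i C)) (by omega) (i C) h3 h2 rfl E hE hEi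
  have hall : ∀ B ∈ X, lead n t U B ∈ W := by
    intro B hB
    by_cases hBA : B = A
    · rw [hBA]; exact hmem A (Finset.mem_insert_self _ _)
    obtain ⟨h1, h2⟩ := hi B hB hBA
    exact D.lead_mem B hB (i B) h1 W fun E hE hEi =>
      key _ (i B) (D.sub B hB h1) h2 rfl E hE hEi
  have : Module.Finite ℝ W := Module.Finite.span_of_finite ℝ S.finite_toSet
  have h1 := D.finrank_ge W hall
  have h2 : Module.finrank ℝ W ≤ S.card := finrank_span_finset_le_card S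
  have h3 : S.card ≤ (insert A Q).card := Finset.card_image_le
  have h4 := Finset.card_insert_le A Q
  omega

theorem joined (D : Data n X 𝓛 t U)
    (hline : ∀ ℓ ∈ 𝓛, ∀ ℓ' ∈ 𝓛, ∀ A C : ℝ × ℝ, A ≠ C → A ∈ ℓ → C ∈ ℓ → A ∈ ℓ' → C ∈ ℓ' → ℓ = ℓ')
    (A : ℝ × ℝ) (hA : A ∈ X) (L : Finset (ℝ × ℝ))
    (hL : ∀ C ∈ X, C ≠ A → (∃ ℓ ∈ 𝓛, A ∈ ℓ ∧ C ∈ ℓ) → C ∈ L) : 2 * n ≤ L.card := by
  classical
  have hex : ∀ B, ∃ ℓ, B ∈ X → B ≠ A → ℓ ∈ U B ∧ A ∈ ℓ := by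
    intro B
    by_cases h : B ∈ X ∧ B ≠ A
    · obtain ⟨ℓ, h1, h2⟩ := D.cover B h.1 A hA (Ne.symm h.2)
      exact ⟨ℓ, fun _ _ => ⟨h1, h2⟩⟩
    · exact ⟨∅, fun h1 h2 => absurd ⟨h1, h2⟩ h⟩
  choose i hi using hex
  obtain ⟨r, hr0, hrlt⟩ : ∃ r : Set (ℝ × ℝ) → ℕ, (∀ ℓ ∈ 𝓛, ∀ ℓ' ∈ 𝓛, r ℓ = r ℓ' → ℓ = ℓ') ∧
      ∀ ℓ ∈ 𝓛, r ℓ < 𝓛.card := by
    refine ⟨fun ℓ => if h : ℓ ∈ 𝓛 then (𝓛.equivFin ⟨ℓ, h⟩ : ℕ) else 0, ?_, ?_⟩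
    · intro ℓ hℓ ℓ' hℓ' h
      simp only [hℓ, hℓ', dif_pos] at h
      have h' := 𝓛.equivFin.injective (Fin.ext h)
      exact congrArg Subtype.val h'
    · intro ℓ hℓ
      simp only [hℓ, dif_pos]
      exact (𝓛.equivFin ⟨ℓ, hℓ⟩).isLt
  set Q : Finset (ℝ × ℝ) := L.filter fun C => C ∈ X ∧ C ≠ A ∧
    ∃ ℓ ∈ 𝓛, A ∈ ℓ ∧ C ∈ ℓ ∧ r ℓ < r (i C) with hQ
  set P : Finset (ℝ × ℝ) := L.filter fun C => C ∈ X ∧ C ≠ A ∧
    ∃ ℓ ∈ 𝓛, A ∈ ℓ ∧ C ∈ ℓ ∧ r (i C) < r ℓ with hP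
  have h1 : n ≤ Q.card := by
    refine half D A hA i (fun B h1 h2 => hi B h1 h2) r hr0 Q ?_
    intro C hC hCA ℓ hℓ hAℓ hCℓ hlt
    rw [hQ, Finset.mem_filter]
    exact ⟨hL C hC hCA ⟨ℓ, hℓ, hAℓ, hCℓ⟩, hC, hCA, ℓ, hℓ, hAℓ, hCℓ, hlt⟩
  have h2 : n ≤ P.card := by
    refine half D A hA i (fun B h1 h2 => hi B h1 h2) (fun ℓ => 𝓛.card - r ℓ) ?_ P ?_
    · intro ℓ hℓ ℓ' hℓ' h
      have e1 := hrlt ℓ hℓ
      have e2 := hrlt ℓ' hℓ'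
      exact hr0 ℓ hℓ ℓ' hℓ' (by omega)
    · intro C hC hCA ℓ hℓ hAℓ hCℓ hlt
      rw [hP, Finset.mem_filter]
      exact ⟨hL C hC hCA ⟨ℓ, hℓ, hAℓ, hCℓ⟩, hC, hCA, ℓ, hℓ, hAℓ, hCℓ, by omega⟩
  have h3 : Disjoint Q P := by
    rw [Finset.disjoint_left]
    intro C hCQ hCP
    rw [hQ, Finset.mem_filter] at hCQ
    rw [hP, Finset.mem_filter] at hCP
    obtain ⟨-, -, hCA, ℓ, hℓ, hAℓ, hCℓ, hlt⟩ := hCQ
    obtain ⟨-, -, -, ℓ', hℓ', hAℓ', hCℓ', hlt'⟩ := hCP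
    have := hline ℓ hℓ ℓ' hℓ' A C (Ne.symm hCA) hAℓ hCℓ hAℓ' hCℓ'
    rw [this] at hlt
    omega
  have h4 : (Q ∪ P).card ≤ L.card :=
    Finset.card_le_card (Finset.union_subset (Finset.filter_subset _ _) (Finset.filter_subset _ _))
  rw [Finset.card_union_of_disjoint h3] at h4
  omega

/-- a line of the family has at most `n + 1` nodes -/
theorem line_le (D : Data n X 𝓛 t U)
    (hline : ∀ ℓ ∈ 𝓛, ∀ ℓ' ∈ 𝓛, ∀ A C : ℝ × ℝ, A ≠ C → A ∈ ℓ → C ∈ ℓ → A ∈ ℓ' → C ∈ ℓ' → ℓ = ℓ')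
    (S : Set (ℝ × ℝ) → Finset (ℝ × ℝ)) (hS : ∀ ℓ C, C ∈ S ℓ ↔ C ∈ X ∧ C ∈ ℓ)
    (ℓ : Set (ℝ × ℝ)) (hℓ : ℓ ∈ 𝓛) : (S ℓ).card ≤ n + 1 := by
  classical
  rcases (S ℓ).eq_empty_or_nonempty with h0 | ⟨A, hAS⟩
  · rw [h0]; simp
  obtain ⟨hA, hAℓ⟩ := (hS ℓ A).mp hAS
  have hex : ∀ C, ∃ ℓ', C ∈ (S ℓ).erase A → ℓ' ∈ U A ∧ C ∈ ℓ' := by
    intro C
    by_cases h : C ∈ (S ℓ).erase A
    · obtain ⟨h1, h2⟩ := Finset.mem_erase.mp h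
      obtain ⟨ℓ', h3, h4⟩ := D.cover A hA C ((hS ℓ C).mp h2).1 h1
      exact ⟨ℓ', fun _ => ⟨h3, h4⟩⟩
    · exact ⟨∅, fun h' => absurd h' h⟩
  choose g hg using hex
  have h1 : ((S ℓ).erase A).card ≤ (U A).card := by
    refine Finset.card_le_card_of_injOn g (fun C hC => (hg C hC).1) ?_
    intro C hC E hE hCE
    by_contra hne
    have hC' := hg C hC
    have hE' := hg E hE
    rw [← hCE] at hE'
    have hCl := ((hS ℓ C).mp (Finset.mem_of_mem_erase hC)).2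
    have hEl := ((hS ℓ E).mp (Finset.mem_of_mem_erase hE)).2
    have h2 := hline ℓ hℓ (g C) (D.sub A hA hC'.1) C E hne hCl hEl hC'.2 hE'.2
    exact D.notMem A hA (g C) hC'.1 (h2 ▸ hAℓ)
  rw [Finset.card_erase_of_mem hAS, D.card A hA] at h1
  omega

/-- a node on at most two lines of the family lies on exactly two, both with `n + 1` nodes -/
theorem two_lines (D : Data n X 𝓛 t U) (hn : 0 < n)
    (hline : ∀ ℓ ∈ 𝓛, ∀ ℓ' ∈ 𝓛, ∀ A C : ℝ × ℝ, A ≠ C → A ∈ ℓ → C ∈ ℓ → A ∈ ℓ' → C ∈ ℓ' → ℓ = ℓ')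
    (S : Set (ℝ × ℝ) → Finset (ℝ × ℝ)) (hS : ∀ ℓ C, C ∈ S ℓ ↔ C ∈ X ∧ C ∈ ℓ)
    (T : ℝ × ℝ → Finset (Set (ℝ × ℝ))) (hT : ∀ A ℓ, ℓ ∈ T A ↔ ℓ ∈ 𝓛 ∧ A ∈ ℓ)
    (A : ℝ × ℝ) (hA : A ∈ X) (hTA : (T A).card ≤ 2) :
    ∃ ℓ ∈ 𝓛, ∃ ℓ' ∈ 𝓛, ℓ ≠ ℓ' ∧ A ∈ ℓ ∧ A ∈ ℓ' ∧ (S ℓ).card = n + 1 ∧ (S ℓ').card = n + 1 := by
  classical
  set L : Finset (ℝ × ℝ) := (T A).biUnion fun ℓ => (S ℓ).erase A with hL
  have h1 : 2 * n ≤ L.card := by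
    refine joined D hline A hA L fun C hC hCA hex => ?_
    obtain ⟨ℓ, hℓ, hAℓ, hCℓ⟩ := hex
    rw [hL, Finset.mem_biUnion]
    exact ⟨ℓ, (hT A ℓ).mpr ⟨hℓ, hAℓ⟩, Finset.mem_erase.mpr ⟨hCA, (hS ℓ C).mpr ⟨hC, hCℓ⟩⟩⟩
  have h2 : L.card ≤ ∑ ℓ ∈ T A, ((S ℓ).erase A).card := Finset.card_biUnion_le
  have h3 : ∀ ℓ ∈ T A, ((S ℓ).erase A).card ≤ n := by
    intro ℓ hℓ
    obtain ⟨h3, h4⟩ := (hT A ℓ).mp hℓ
    rw [Finset.card_erase_of_mem ((hS ℓ A).mpr ⟨hA, h4⟩)]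
    have := line_le D hline S hS ℓ h3
    omega
  have h4 : ∀ ℓ ∈ T A, 0 < (S ℓ).card := by
    intro ℓ hℓ
    exact Finset.card_pos.mpr ⟨A, (hS ℓ A).mpr ⟨hA, ((hT A ℓ).mp hℓ).2⟩⟩
  have h5 : (T A).card = 2 := by
    have h6 : ∑ ℓ ∈ T A, ((S ℓ).erase A).card ≤ (T A).card * n := by
      have := Finset.sum_le_card_nsmul (T A) (fun ℓ => ((S ℓ).erase A).card) n h3
      rwa [smul_eq_mul] at this
    have h7 : 2 * n ≤ (T A).card * n := h1.trans (h2.trans h6)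
    have := Nat.le_of_mul_le_mul_right h7 hn
    omega
  obtain ⟨ℓ, ℓ', hne, hTeq⟩ := Finset.card_eq_two.mp h5
  have m1 : ℓ ∈ T A := by rw [hTeq]; simp
  have m2 : ℓ' ∈ T A := by rw [hTeq]; simp
  rw [hTeq, Finset.sum_pair hne] at h2
  have a1 := h3 ℓ m1
  have a2 := h3 ℓ' m2
  have b1 := h4 ℓ m1
  have b2 := h4 ℓ' m2
  have c1 := Finset.card_erase_of_mem ((hS ℓ A).mpr ⟨hA, ((hT A ℓ).mp m1).2⟩)
  have c2 := Finset.card_erase_of_mem ((hS ℓ' A).mpr ⟨hA, ((hT A ℓ').mp m2).2⟩)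
  refine ⟨ℓ, ((hT A ℓ).mp m1).1, ℓ', ((hT A ℓ').mp m2).1, hne, ((hT A ℓ).mp m1).2,
    ((hT A ℓ').mp m2).2, ?_, ?_⟩ <;> omega

/-- if every node lies on at least three lines of the family, the family is large -/
theorem few_lines (hcard : X.card = (n + 2).choose 2)
    (hline : ∀ ℓ ∈ 𝓛, ∀ ℓ' ∈ 𝓛, ∀ A C : ℝ × ℝ, A ≠ C → A ∈ ℓ → C ∈ ℓ → A ∈ ℓ' → C ∈ ℓ' → ℓ = ℓ')
    (T : ℝ × ℝ → Finset (Set (ℝ × ℝ))) (hT : ∀ A ℓ, ℓ ∈ T A ↔ ℓ ∈ 𝓛 ∧ A ∈ ℓ)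
    (h3 : ∀ A ∈ X, 3 ≤ (T A).card) :
    3 * (n + 1) * (n + 2) ≤ 𝓛.card * (𝓛.card - 1) := by
  classical
  have hdisj : ∀ A ∈ X, ∀ B ∈ X, A ≠ B → Disjoint (T A).offDiag (T B).offDiag := by
    intro A _ B _ hAB
    rw [Finset.disjoint_left]
    rintro ⟨ℓ, ℓ'⟩ h1 h2
    rw [Finset.mem_offDiag] at h1 h2
    obtain ⟨a1, a2, a3⟩ := h1
    obtain ⟨b1, b2, -⟩ := h2
    exact a3 (hline ℓ ((hT A ℓ).mp a1).1 ℓ' ((hT A ℓ').mp a2).1 A B hAB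
      ((hT A ℓ).mp a1).2 ((hT B ℓ).mp b1).2 ((hT A ℓ').mp a2).2 ((hT B ℓ').mp b2).2)
  have h4 : (X.biUnion fun A => (T A).offDiag).card = ∑ A ∈ X, (T A).offDiag.card :=
    Finset.card_biUnion hdisj
  have h5 : (X.biUnion fun A => (T A).offDiag).card ≤ 𝓛.offDiag.card := by
    refine Finset.card_le_card fun x hx => ?_
    rw [Finset.mem_biUnion] at hx
    obtain ⟨A, -, hx⟩ := hx
    exact Finset.offDiag_mono (fun ℓ hℓ => ((hT A ℓ).mp hℓ).1) hx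
  have h6 : ∑ _A ∈ X, 6 ≤ ∑ A ∈ X, (T A).offDiag.card := by
    refine Finset.sum_le_sum fun A hA => ?_
    rw [Finset.offDiag_card]
    have h := h3 A hA
    have h7 : (T A).card * 3 ≤ (T A).card * (T A).card := Nat.mul_le_mul_left _ h
    have h8 : (T A).card * 3 - (T A).card ≤ (T A).card * (T A).card - (T A).card :=
      Nat.sub_le_sub_right h7 _
    omega
  rw [Finset.sum_const, smul_eq_mul, hcard] at h6
  rw [Finset.offDiag_card] at h5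
  have h9 : (n + 2).choose 2 * 2 = (n + 2) * (n + 1) := by
    rw [Nat.choose_two_right]
    have h10 : Even ((n + 2) * (n + 2 - 1)) := Nat.even_mul_pred_self (n + 2)
    rw [Nat.div_mul_cancel h10.two_dvd]
    congr 1
  have h11 : 𝓛.card * (𝓛.card - 1) = 𝓛.card * 𝓛.card - 𝓛.card := by
    rw [Nat.mul_sub, Nat.mul_one]
  rw [h11]
  calc 3 * (n + 1) * (n + 2) = 3 * ((n + 2) * (n + 1)) := by ring
    _ = 3 * ((n + 2).choose 2 * 2) := by rw [h9]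
    _ = (n + 2).choose 2 * 6 := by ring
    _ ≤ _ := by omega

/-- two lines with two common points are equal -/
theorem lines_eq (ℓ ℓ' : Set (ℝ × ℝ))
    (h : ∃ a b c : ℝ, (a ≠ 0 ∨ b ≠ 0) ∧ ℓ = {q | a * q.1 + b * q.2 = c})
    (h' : ∃ a b c : ℝ, (a ≠ 0 ∨ b ≠ 0) ∧ ℓ' = {q | a * q.1 + b * q.2 = c})
    (A C : ℝ × ℝ) (hAC : A ≠ C) (h1 : A ∈ ℓ) (h2 : C ∈ ℓ) (h3 : A ∈ ℓ') (h4 : C ∈ ℓ') :
    ℓ = ℓ' := by
  obtain ⟨a, b, c, hab, rfl⟩ := h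
  obtain ⟨a', b', c', hab', rfl⟩ := h'
  obtain ⟨x, y⟩ := A
  obtain ⟨z, w⟩ := C
  simp only [Set.mem_setOf_eq] at h1 h2 h3 h4
  have e1 : a * (x - z) + b * (y - w) = 0 := by linarith
  have e2 : a' * (x - z) + b' * (y - w) = 0 := by linarith
  have hdet : a * b' - a' * b = 0 := by
    have f1 : (a * b' - a' * b) * (x - z) = 0 := by linear_combination b' * e1 - b * e2
    have f2 : (a * b' - a' * b) * (y - w) = 0 := by linear_combination a * e2 - a' * e1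
    by_contra hne
    have g1 := (mul_eq_zero.mp f1).resolve_left hne
    have g2 := (mul_eq_zero.mp f2).resolve_left hne
    exact hAC (Prod.ext (by simpa using sub_eq_zero.mp g1) (by simpa using sub_eq_zero.mp g2))
  ext ⟨u, v⟩
  simp only [Set.mem_setOf_eq]
  constructor
  · intro hu
    have k1 : a * (a' * u + b' * v - c') = 0 := by
      linear_combination a' * hu + v * hdet - a' * h1 + a * h3 - y * hdet
    have k2 : b * (a' * u + b' * v - c') = 0 := by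
      linear_combination b' * hu - u * hdet - b' * h1 + b * h3 + x * hdet
    rcases hab with ha | hb
    · have := (mul_eq_zero.mp k1).resolve_left ha
      linarith
    · have := (mul_eq_zero.mp k2).resolve_left hb
      linarith
  · intro hu
    have k1 : a' * (a * u + b * v - c) = 0 := by
      linear_combination a * hu - v * hdet - a * h3 + a' * h1 + y * hdet
    have k2 : b' * (a * u + b * v - c) = 0 := by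
      linear_combination b * hu + u * hdet - b * h3 + b' * h1 - x * hdet
    rcases hab' with ha | hb
    · have := (mul_eq_zero.mp k1).resolve_left ha
      linarith
    · have := (mul_eq_zero.mp k2).resolve_left hb
      linarith

/-- the data from the plain hypotheses -/
theorem exists_data (n : ℕ) (X : Finset (ℝ × ℝ))
    (hcorr : ∀ p : MvPolynomial (Fin 2) ℝ, p.totalDegree ≤ n →
      (∀ x ∈ X, MvPolynomial.eval ![x.1, x.2] p = 0) → p = 0)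
    (𝓛 : Finset (Set (ℝ × ℝ)))
    (hlines : ∀ ℓ ∈ 𝓛, ∃ a b c : ℝ, (a ≠ 0 ∨ b ≠ 0) ∧ ℓ = {q | a * q.1 + b * q.2 = c})
    (hgc : ∀ A ∈ X, ∃ U ⊆ 𝓛, U.card = n ∧ (∀ ℓ ∈ U, A ∉ ℓ) ∧
      ∀ B ∈ X, B ≠ A → ∃ ℓ ∈ U, B ∈ ℓ) :
    ∃ (t : Set (ℝ × ℝ) → ℝ × ℝ × ℝ) (U : ℝ × ℝ → Finset (Set (ℝ × ℝ))), Data n X 𝓛 t U := by
  classical
  have h1 : ∀ ℓ, ∃ u : ℝ × ℝ × ℝ, ℓ ∈ 𝓛 → ∀ q : ℝ × ℝ, q ∈ ℓ ↔ eval ![q.1, q.2] (lin u) = 0 := by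
    intro ℓ
    by_cases h : ℓ ∈ 𝓛
    · obtain ⟨a, b, c, -, he⟩ := hlines ℓ h
      refine ⟨(a, b, c), fun _ q => ?_⟩
      rw [he, lin_eval, Set.mem_setOf_eq, sub_eq_zero]
    · exact ⟨0, fun h' => absurd h' h⟩
  choose t ht using h1
  have h2 : ∀ A, ∃ U : Finset (Set (ℝ × ℝ)), A ∈ X → U ⊆ 𝓛 ∧ U.card = n ∧ (∀ ℓ ∈ U, A ∉ ℓ) ∧
      ∀ B ∈ X, B ≠ A → ∃ ℓ ∈ U, B ∈ ℓ := by
    intro A
    by_cases h : A ∈ X
    · obtain ⟨U, hU⟩ := hgc A h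
      exact ⟨U, fun _ => hU⟩
    · exact ⟨∅, fun h' => absurd h' h⟩
  choose U hU using h2
  exact ⟨t, U, hcorr, fun ℓ hℓ => ht ℓ hℓ, fun A hA => (hU A hA).1, fun A hA => (hU A hA).2.1,
    fun A hA => (hU A hA).2.2.1, fun A hA => (hU A hA).2.2.2⟩

end Pool.Agent.Work.MP_d899bc_co
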