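import Mathlib

/-!
Node sets of the plane whose fundamental polynomials split into lines of a given family.
-/

open Finset MvPolynomial

namespace Pool.Agent.Work.MP_d899bc_co

/-- the linear polynomial `a x + b y - c` -/
noncomputable def lin (t : ℝ × ℝ × ℝ) : MvPolynomial (Fin 2) ℝ :=
  C t.1 * X 0 + C t.2.1 * X 1 - C t.2.2

theorem lin_eval (t : ℝ × ℝ × ℝ) (q : ℝ × ℝ) :
    eval ![q.1, q.2] (lin t) = t.1 * q.1 + t.2.1 * q.2 - t.2.2 := by
  simp [lin]

theorem lin_degree (t : ℝ × ℝ × ℝ) : (lin t).totalDegree ≤ 1 := by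
  unfold lin
  refine (totalDegree_sub _ _).trans (max_le ((totalDegree_add _ _).trans (max_le ?_ ?_)) ?_)
  · refine (totalDegree_mul _ _).trans ?_
    rw [totalDegree_C, totalDegree_X]
  · refine (totalDegree_mul _ _).trans ?_
    rw [totalDegree_C, totalDegree_X]
  · rw [totalDegree_C]; exact Nat.zero_le _

theorem prod_degree {ι : Type*} (s : Finset ι) (f : ι → MvPolynomial (Fin 2) ℝ)
    (hf : ∀ i ∈ s, (f i).totalDegree ≤ 1) : (∏ i ∈ s, f i).totalDegree ≤ s.card := by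
  refine (totalDegree_finsetProd s f).trans ?_
  calc ∑ i ∈ s, (f i).totalDegree ≤ ∑ _i ∈ s, 1 := Finset.sum_le_sum hf
    _ = s.card := by simp

/-- the data: nodes `X`, lines `𝓛` with equations `t`, and for every node `B` the lines `U B` -/
structure Data (n : ℕ) (X : Finset (ℝ × ℝ)) (𝓛 : Finset (Set (ℝ × ℝ)))
    (t : Set (ℝ × ℝ) → ℝ × ℝ × ℝ) (U : ℝ × ℝ → Finset (Set (ℝ × ℝ))) : Prop where
  corr : ∀ p : MvPolynomial (Fin 2) ℝ, p.totalDegree ≤ n →
    (∀ x ∈ X, eval ![x.1, x.2] p = 0) → p = 0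
  mem : ∀ ℓ ∈ 𝓛, ∀ q : ℝ × ℝ, q ∈ ℓ ↔ eval ![q.1, q.2] (lin (t ℓ)) = 0
  sub : ∀ A ∈ X, U A ⊆ 𝓛
  card : ∀ A ∈ X, (U A).card = n
  notMem : ∀ A ∈ X, ∀ ℓ ∈ U A, A ∉ ℓ
  cover : ∀ A ∈ X, ∀ B ∈ X, B ≠ A → ∃ ℓ ∈ U A, B ∈ ℓ

variable {n : ℕ} {X : Finset (ℝ × ℝ)} {𝓛 : Finset (Set (ℝ × ℝ))}
  {t : Set (ℝ × ℝ) → ℝ × ℝ × ℝ} {U : ℝ × ℝ → Finset (Set (ℝ × ℝ))}

/-- the unnormalised fundamental polynomial -/
noncomputable def fund (t : Set (ℝ × ℝ) → ℝ × ℝ × ℝ) (U : ℝ × ℝ → Finset (Set (ℝ × ℝ)))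
    (B : ℝ × ℝ) : MvPolynomial (Fin 2) ℝ := ∏ ℓ ∈ U B, lin (t ℓ)

/-- its leading form -/
noncomputable def lead (n : ℕ) (t : Set (ℝ × ℝ) → ℝ × ℝ × ℝ)
    (U : ℝ × ℝ → Finset (Set (ℝ × ℝ))) (B : ℝ × ℝ) : MvPolynomial (Fin 2) ℝ :=
  homogeneousComponent n (fund t U B)

namespace Data

variable (D : Data n X 𝓛 t U)
include D

theorem fund_degree (B : ℝ × ℝ) (hB : B ∈ X) : (fund t U B).totalDegree ≤ n := by
  rw [← D.card B hB]
  exact prod_degree _ _ fun ℓ _ => lin_degree _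

theorem fund_self (B : ℝ × ℝ) (hB : B ∈ X) : eval ![B.1, B.2] (fund t U B) ≠ 0 := by
  unfold fund
  rw [map_prod]
  refine Finset.prod_ne_zero_iff.mpr fun ℓ hℓ h => ?_
  exact D.notMem B hB ℓ hℓ ((D.mem ℓ (D.sub B hB hℓ) B).mpr h)

theorem fund_other (B C : ℝ × ℝ) (hB : B ∈ X) (hC : C ∈ X) (h : C ≠ B) :
    eval ![C.1, C.2] (fund t U B) = 0 := by
  obtain ⟨ℓ, hℓ, hC'⟩ := D.cover B hB C hC h
  unfold fund
  rw [map_prod]
  exact Finset.prod_eq_zero hℓ ((D.mem ℓ (D.sub B hB hℓ) C).mp hC')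

/-- Lagrange expansion -/
theorem expand (f : MvPolynomial (Fin 2) ℝ) (hf : f.totalDegree ≤ n) :
    f = ∑ B ∈ X, (eval ![B.1, B.2] f / eval ![B.1, B.2] (fund t U B)) • fund t U B := by
  refine sub_eq_zero.mp (D.corr _ ?_ ?_)
  · refine (totalDegree_sub _ _).trans (max_le hf ?_)
    refine (totalDegree_finsetSum _ _).trans (Finset.sup_le fun B hB => ?_)
    exact (totalDegree_smul_le _ _).trans (D.fund_degree B hB)
  · intro x hx
    rw [map_sub, map_sum, Finset.sum_eq_single x]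
    · rw [smul_eval, div_mul_cancel₀ _ (D.fund_self x hx), sub_self]
    · intro B hB hne
      rw [smul_eval, D.fund_other B x hB hx (Ne.symm hne), mul_zero]
    · intro h
      exact absurd hx h

/-- if `B` uses `ℓ`, its leading form is a combination of those of the nodes of `ℓ` -/
theorem lead_mem (B : ℝ × ℝ) (hB : B ∈ X) (ℓ : Set (ℝ × ℝ)) (hℓ : ℓ ∈ U B)
    (W : Submodule ℝ (MvPolynomial (Fin 2) ℝ)) (hW : ∀ C ∈ X, C ∈ ℓ → lead n t U C ∈ W) :
    lead n t U B ∈ W := by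
  classical
  set q : MvPolynomial (Fin 2) ℝ := ∏ ℓ' ∈ (U B).erase ℓ, lin (t ℓ') with hq
  have hn : 0 < n := by
    rw [← D.card B hB]
    exact Finset.card_pos.mpr ⟨ℓ, hℓ⟩
  have hdeg : q.totalDegree ≤ n - 1 := by
    have h := prod_degree ((U B).erase ℓ) (fun ℓ' => lin (t ℓ')) fun ℓ _ => lin_degree _
    rw [Finset.card_erase_of_mem hℓ, D.card B hB] at h
    exact h
  have hprod : fund t U B = lin (t ℓ) * q := by
    unfold fund
    rw [← Finset.mul_prod_erase (U B) (fun ℓ' => lin (t ℓ')) hℓ]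
  have hqB : eval ![B.1, B.2] q ≠ 0 := by
    intro h
    apply D.fund_self B hB
    rw [hprod, map_mul, h, mul_zero]
  have hqC : ∀ C ∈ X, C ≠ B → C ∉ ℓ → eval ![C.1, C.2] q = 0 := by
    intro C hC hne hCℓ
    have h := D.fund_other B C hB hC hne
    rw [hprod, map_mul] at h
    rcases mul_eq_zero.mp h with h | h
    · exact absurd ((D.mem ℓ (D.sub B hB hℓ) C).mpr h) hCℓ
    · exact h
  have hexp := congrArg (homogeneousComponent n) (D.expand q (by omega))
  rw [homogeneousComponent_eq_zero n q (by omega), map_sum] at hexp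
  simp only [map_smul] at hexp
  rw [← Finset.add_sum_erase X _ hB] at hexp
  have h1 : ∑ C ∈ X.erase B, (eval ![C.1, C.2] q / eval ![C.1, C.2] (fund t U C)) •
      homogeneousComponent n (fund t U C) ∈ W := by
    refine Submodule.sum_mem _ fun C hC => ?_
    have hne := Finset.ne_of_mem_erase hC
    have hCX := Finset.mem_of_mem_erase hC
    by_cases hCℓ : C ∈ ℓ
    · exact W.smul_mem _ (hW C hCX hCℓ)
    · rw [hqC C hCX hne hCℓ, zero_div, zero_smul]
      exact W.zero_mem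
  have h2 : (eval ![B.1, B.2] q / eval ![B.1, B.2] (fund t U B)) •
      homogeneousComponent n (fund t U B) ∈ W := by
    rw [eq_neg_of_add_eq_zero_left hexp.symm]
    exact W.neg_mem h1
  have h3 : eval ![B.1, B.2] q / eval ![B.1, B.2] (fund t U B) ≠ 0 :=
    div_ne_zero hqB (D.fund_self B hB)
  exact (W.smul_mem_iff h3).mp h2

/-- a subspace containing all leading forms has dimension at least `n + 1` -/
theorem finrank_ge (W : Submodule ℝ (MvPolynomial (Fin 2) ℝ)) [Module.Finite ℝ W]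
    (hW : ∀ B ∈ X, lead n t U B ∈ W) : n + 1 ≤ Module.finrank ℝ W := by
  classical
  have hmon : ∀ i : Fin (n + 1), monomial (Finsupp.single (0 : Fin 2) (i : ℕ) +
      Finsupp.single (1 : Fin 2) (n - i)) (1 : ℝ) ∈ W := by
    intro i
    set f : MvPolynomial (Fin 2) ℝ := monomial (Finsupp.single (0 : Fin 2) (i : ℕ) +
      Finsupp.single (1 : Fin 2) (n - i)) (1 : ℝ) with hf
    have hdeg : (Finsupp.single (0 : Fin 2) (i : ℕ) +
      Finsupp.single (1 : Fin 2) (n - i)).degree = n := by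
      rw [map_add, Finsupp.degree_single, Finsupp.degree_single]
      have := i.isLt
      omega
    have hhom : f.IsHomogeneous n := isHomogeneous_monomial _ hdeg
    have hself : homogeneousComponent n f = f := by
      rw [homogeneousComponent_of_mem hhom, if_pos rfl]
    have htd : f.totalDegree ≤ n := hhom.totalDegree_le
    have hexp := congrArg (homogeneousComponent n) (D.expand f htd)
    rw [hself, map_sum] at hexp
    rw [hexp]
    refine Submodule.sum_mem _ fun B hB => ?_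
    rw [map_smul]
    exact W.smul_mem _ (hW B hB)
  have hli : LinearIndependent ℝ (fun i : Fin (n + 1) =>
      (⟨_, hmon i⟩ : W)) := by
    refine LinearIndependent.of_comp W.subtype ?_
    have hinj : Function.Injective (fun i : Fin (n + 1) => (Finsupp.single (0 : Fin 2) (i : ℕ) +
      Finsupp.single (1 : Fin 2) (n - i) : Fin 2 →₀ ℕ)) := by
      intro i j hij
      have h := DFunLike.congr_fun hij 0
      simp at h
      exact Fin.ext h
    have h := (basisMonomials (Fin 2) ℝ).linearIndependent.comp _ hinj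
    rw [coe_basisMonomials] at h
    exact h
  have h := hli.fintype_card_le_finrank
  rwa [Fintype.card_fin] at h

end Data

end Pool.Agent.Work.MP_d899bc_co
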